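import Mathlib

/-!
# Ideals on a countable set, the forcing `P(X)/I`, and the forcing relation

Definitions used in the statement of the main theorem (problem MP_c87228_lc).

Everything is done over the ground model `V` (the types of Lean). A statement about the
generic extension `V[G]` is identified with the set of conditions that force it; it is built by
the usual clauses of the forcing relation.

The forcing notions in question are `σ`-closed, so `V[G]` has no new subsets of a countable set
(see `Sanity.lean`, `no_new_subsets`), and quantifiers over subsets of `ℕ` or of `X` in `V[G]`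
range over the ground model. A *family* of such subsets in `V[G]` (an ultrafilter, a cofinal
subfamily, the graph of a map between ultrafilters) is a subset in `V[G]` of a ground model set,
and is given by a name.
-/

namespace Pool.Agent.Lib.MP_c87228_lc

/-! ### Ideals and sigma-ideals on a set `X` -/

/-- `I` is a proper ideal of subsets of `X` that contains all finite sets. -/
structure IsIdeal {X : Type} (I : Set (Set X)) : Prop where
  finite_mem : ∀ A : Set X, A.Finite → A ∈ I
  subset_mem : ∀ A B : Set X, A ⊆ B → B ∈ I → A ∈ I
  union_mem : ∀ A B : Set X, A ∈ I → B ∈ I → A ∪ B ∈ I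
  univ_notMem : (Set.univ : Set X) ∉ I

/-- The `σ`-ideals of the problem: ideals such that every decreasing sequence of `I`-positive
sets has an `I`-positive set below all of them modulo `I` (that is, `P(X)/I` is `σ`-closed). -/
def IsSigmaIdeal {X : Type} (I : Set (Set X)) : Prop :=
  IsIdeal I ∧ ∀ A : ℕ → Set X, (∀ n, A n ∉ I) → (∀ n, A (n + 1) ⊆ A n) →
    ∃ B : Set X, B ∉ I ∧ ∀ n, B \ A n ∈ I

/-- The conditions of the forcing notion `P(X)/I`: the `I`-positive subsets of `X`. -/
structure Cond {X : Type} (I : Set (Set X)) where
  /-- the underlying positive set -/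
  carrier : Set X
  pos : carrier ∉ I

/-- The order of `P(X)/I`: `p ≤ q` iff `p \ q ∈ I`. -/
instance instLECond {X : Type} (I : Set (Set X)) : LE (Cond I) :=
  ⟨fun p q => p.carrier \ q.carrier ∈ I⟩

/-! ### The forcing relation -/

section Forcing

variable {P : Type} [LE P]

/-- A statement of the forcing language, identified with the set of conditions forcing it. -/
def Sentence (P : Type) : Type := P → Prop

/-- `p` forces `φ`. -/
def Forces (p : P) (φ : Sentence P) : Prop := φ p

/-- A statement about ground model objects only (such as `A ⊆ B` or `b = b'`); it is absolute. -/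
def ground (φ : Prop) : Sentence P := fun _ => φ

/-- Conjunction. -/
def conj (φ ψ : Sentence P) : Sentence P := fun p => Forces p φ ∧ Forces p ψ

/-- Implication: `p` forces `φ → ψ` iff every `q ≤ p` forcing `φ` forces `ψ`. -/
def impl (φ ψ : Sentence P) : Sentence P := fun p => ∀ q, q ≤ p → Forces q φ → Forces q ψ

/-- Negation: `p` forces `¬ φ` iff no `q ≤ p` forces `φ`. -/
def neg (φ : Sentence P) : Sentence P := fun p => ∀ q, q ≤ p → ¬ Forces q φ

/-- Disjunction: the conditions forcing `φ` or forcing `ψ` are dense below `p`. -/
def disj (φ ψ : Sentence P) : Sentence P :=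
  fun p => ∀ q, q ≤ p → ∃ r, r ≤ q ∧ (Forces r φ ∨ Forces r ψ)

/-- Universal quantifier (over ground model objects, or over names). -/
def all {ι : Type} (φ : ι → Sentence P) : Sentence P := fun p => ∀ i, Forces p (φ i)

/-- Existential quantifier (over ground model objects, or over names): the conditions forcing
some instance are dense below `p`. -/
def ex {ι : Type} (φ : ι → Sentence P) : Sentence P :=
  fun p => ∀ q, q ≤ p → ∃ r, r ≤ q ∧ ∃ i, Forces r (φ i)

/-- A name for a subset, in the generic extension, of the ground model set (type) `α`: it attaches
to each `a : α` a set of conditions. Every subset of `α` in `V[G]` has such a name. -/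
def Name (P α : Type) : Type := α → Set P

/-- `a ∈ N`, for `a` in the ground model and a name `N`: it is forced by `p` iff the conditions
below some member of `N a` are dense below `p`. -/
def mem {α : Type} (a : α) (N : Name P α) : Sentence P :=
  fun p => ∀ q, q ≤ p → ∃ r, r ≤ q ∧ ∃ s ∈ N a, r ≤ s

/-- The statement that the family `U` of subsets of `α` is an ultrafilter on `α`. -/
def IsUltrafilterOn {α : Type} (U : Name P (Set α)) : Sentence P :=
  conj (mem Set.univ U) <|
  conj (neg (mem ∅ U)) <|
  conj (all fun A : Set α => all fun B : Set α =>
    impl (mem A U) (impl (ground (A ⊆ B)) (mem B U))) <|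
  conj (all fun A : Set α => all fun B : Set α =>
    impl (mem A U) (impl (mem B U) (mem (A ∩ B) U))) <|
  all fun A : Set α => disj (mem A U) (mem Aᶜ U)

/-- The statement that `F` is (the graph of) a function from `U` to `W`. -/
def IsFunction {α β : Type} (F : Name P (α × β)) (U : Name P α) (W : Name P β) : Sentence P :=
  conj (all fun a : α => all fun b : β =>
    impl (mem (a, b) F) (conj (mem a U) (mem b W))) <|
  conj (all fun a : α => impl (mem a U) (ex fun b : β => mem (a, b) F)) <|
  all fun a : α => all fun b : β => all fun b' : β =>
    impl (mem (a, b) F) (impl (mem (a, b') F) (ground (b = b')))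

/-- The statement that `C` is a cofinal subset of the directed poset `(U, ⊇)`. -/
def IsCofinal {α : Type} (C U : Name P (Set α)) : Sentence P :=
  conj (all fun A : Set α => impl (mem A C) (mem A U)) <|
  all fun A : Set α => impl (mem A U)
    (ex fun B : Set α => conj (mem B C) (ground (B ⊆ A)))

/-- The statement that the image of `C` under (the graph) `F` is cofinal in `(W, ⊇)`. (For a
function `F` from `U` to `W`, the image is a subset of `W` automatically.) -/
def ImageIsCofinal {α β : Type} (F : Name P (Set α × Set β)) (C : Name P (Set α))
    (W : Name P (Set β)) : Sentence P :=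
  all fun w : Set β => impl (mem w W)
    (ex fun c : Set α => ex fun b : Set β =>
      conj (mem c C) (conj (mem (c, b) F) (ground (b ⊆ w))))

/-- The statement `(W, ⊇) ≤_T (U, ⊇)`: there is a map from `U` to `W` that sends every cofinal
subset of `(U, ⊇)` to a cofinal subset of `(W, ⊇)`. -/
def TukeyLE {α β : Type} (W : Name P (Set β)) (U : Name P (Set α)) : Sentence P :=
  ex fun F : Name P (Set α × Set β) =>
    conj (IsFunction F U W)
      (all fun C : Name P (Set α) => impl (IsCofinal C U) (ImageIsCofinal F C W))

/-- The statement that the ultrafilter `U` is Tukey-top: `(W, ⊇) ≤_T (U, ⊇)` for every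
ultrafilter `W` on `ω`. -/
def IsTukeyTop {α : Type} (U : Name P (Set α)) : Sentence P :=
  all fun W : Name P (Set ℕ) => impl (IsUltrafilterOn W) (TukeyLE W U)

end Forcing

/-- The canonical name of the generic ultrafilter `G` of `P(X)/I`: a set `A` belongs to `G` iff
`G` contains a condition `p` with `p \ A ∈ I`. -/
def genericName {X : Type} (I : Set (Set X)) : Name (Cond I) (Set X) :=
  fun A => {p | p.carrier \ A ∈ I}

end Pool.Agent.Lib.MP_c87228_lc
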