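import Mathlib
import Pool.Agent.Lib.MP_c87228_lc.Forcing

/-!
# The ideal

The underlying countable set is `Pt = ℕ × Finset (Finset ℕ)`; the `n`-th level consists of the
pairs `(n, s)`, `s` a finite family of finite sets of natural numbers.
-/

namespace Pool.Agent.Lib.MP_c87228_lc

/-- The countable set carrying the ideal. -/
abbrev Pt : Type := ℕ × Finset (Finset ℕ)

/-- The `n`-th level of `A` is `(k, l)`-small: there are a family `a` with at most `k` elements and
at most `k` families `b ∈ B`, each with at least `l` elements, such that every `(n, s) ∈ A` either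
omits an element of `a` or contains some `b ∈ B`. -/
def Small (k l : ℕ) (A : Set Pt) (n : ℕ) : Prop :=
  ∃ a : Finset (Finset ℕ), a.card ≤ k ∧ ∃ B : Finset (Finset (Finset ℕ)), B.card ≤ k ∧
    (∀ b ∈ B, l ≤ b.card) ∧ ∀ s, (n, s) ∈ A → ¬ a ⊆ s ∨ ∃ b ∈ B, b ⊆ s

/-- The ideal: `A` is in it iff there is `k` such that for every `l` almost all levels of `A` are
`(k, l)`-small. -/
def idl : Set (Set Pt) := {A | ∃ k, ∀ l, ∃ N, ∀ n, N ≤ n → Small k l A n}

lemma Small.mono {k k' l l' : ℕ} {A A' : Set Pt} {n : ℕ} (h : Small k l A n) (hk : k ≤ k')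
    (hl : l' ≤ l) (hA : ∀ s, (n, s) ∈ A' → (n, s) ∈ A) : Small k' l' A' n := by
  obtain ⟨a, ha, B, hB, hb, hs⟩ := h
  exact ⟨a, ha.trans hk, B, hB.trans hk, fun b hb' => hl.trans (hb b hb'), fun s hs' => hs s (hA s hs')⟩

lemma Small.union {k k' l : ℕ} {A A' : Set Pt} {n : ℕ} (h : Small k l A n) (h' : Small k' l A' n) :
    Small (k + k') l (A ∪ A') n := by
  classical
  obtain ⟨a, ha, B, hB, hb, hs⟩ := h
  obtain ⟨a', ha', B', hB', hb', hs'⟩ := h'
  refine ⟨a ∪ a', (Finset.card_union_le _ _).trans (by omega), B ∪ B',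
    (Finset.card_union_le _ _).trans (by omega), ?_, ?_⟩
  · intro b hb0
    rcases Finset.mem_union.1 hb0 with h0 | h0
    · exact hb b h0
    · exact hb' b h0
  · rintro s (h0 | h0)
    · rcases hs s h0 with h1 | ⟨b, hb1, hb2⟩
      · left
        intro h2
        exact h1 (Finset.union_subset_left h2)
      · right
        exact ⟨b, Finset.mem_union_left _ hb1, hb2⟩
    · rcases hs' s h0 with h1 | ⟨b, hb1, hb2⟩
      · left
        intro h2
        exact h1 (Finset.union_subset_right h2)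
      · right
        exact ⟨b, Finset.mem_union_right _ hb1, hb2⟩

lemma small_empty_level {A : Set Pt} {n : ℕ} (h : ∀ s, (n, s) ∉ A) (k l : ℕ) : Small k l A n :=
  ⟨∅, by simp, ∅, by simp, by simp, fun s hs => absurd hs (h s)⟩

lemma idl_mono {A B : Set Pt} (h : A ⊆ B) (hB : B ∈ idl) : A ∈ idl := by
  obtain ⟨k, hk⟩ := hB
  refine ⟨k, fun l => ?_⟩
  obtain ⟨N, hN⟩ := hk l
  exact ⟨N, fun n hn => (hN n hn).mono le_rfl le_rfl (fun s hs => h hs)⟩

lemma idl_union {A B : Set Pt} (hA : A ∈ idl) (hB : B ∈ idl) : A ∪ B ∈ idl := by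
  obtain ⟨k, hk⟩ := hA
  obtain ⟨k', hk'⟩ := hB
  refine ⟨k + k', fun l => ?_⟩
  obtain ⟨N, hN⟩ := hk l
  obtain ⟨N', hN'⟩ := hk' l
  exact ⟨max N N', fun n hn => (hN n (le_trans (le_max_left _ _) hn)).union
    (hN' n (le_trans (le_max_right _ _) hn))⟩

lemma idl_finite {A : Set Pt} (hA : A.Finite) : A ∈ idl := by
  have : (Prod.fst '' A).Finite := hA.image _
  obtain ⟨N, hN⟩ := this.bddAbove
  refine ⟨0, fun l => ⟨N + 1, fun n hn => small_empty_level (fun s hs => ?_) 0 l⟩⟩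
  have := hN ⟨(n, s), hs, rfl⟩
  simp at this
  omega

lemma idl_univ : (Set.univ : Set Pt) ∉ idl := by
  rintro ⟨k, hk⟩
  obtain ⟨N, hN⟩ := hk (k + 1)
  obtain ⟨a, ha, B, hB, hb, hs⟩ := hN N le_rfl
  rcases hs a (Set.mem_univ _) with h | ⟨b, hb1, hb2⟩
  · exact h (Finset.Subset.refl _)
  · have h1 := hb b hb1
    have h2 := Finset.card_le_card hb2
    omega

lemma isIdeal_idl : IsIdeal idl where
  finite_mem _ h := idl_finite h
  subset_mem _ _ h hB := idl_mono h hB
  union_mem _ _ hA hB := idl_union hA hB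
  univ_notMem := idl_univ

/-! ### The Tukey-top family -/

/-- The trace of a set of natural numbers on `{0, …, n-1}`. -/
noncomputable def tr (n : ℕ) (w : Set ℕ) : Finset ℕ := by
  classical
  exact (Finset.range n).filter (· ∈ w)

lemma mem_tr {n : ℕ} {w : Set ℕ} {i : ℕ} : i ∈ tr n w ↔ i < n ∧ i ∈ w := by
  simp [tr]

/-- The set `X_w` of all `(n, s)` such that the trace of `w` on `n` belongs to `s`. -/
def fam (w : Set ℕ) : Set Pt := {x | tr x.1 w ∈ x.2}

lemma fam_compl_mem (w : Set ℕ) : (fam w)ᶜ ∈ idl := by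
  refine ⟨1, fun l => ⟨0, fun n _ => ⟨{tr n w}, by simp, ∅, by simp, by simp, fun s hs => ?_⟩⟩⟩
  left
  intro h
  exact hs (Finset.singleton_subset_iff.1 h)

/-- Finitely many distinct sets have distinct traces on all large `n`. -/
lemma tr_injOn (T : Finset (Set ℕ)) : ∃ N, ∀ n, N ≤ n → Set.InjOn (tr n) (T : Set (Set ℕ)) := by
  classical
  have h1 : ∀ p : Set ℕ × Set ℕ, ∃ N, p.1 ≠ p.2 → ∀ n, N ≤ n → tr n p.1 ≠ tr n p.2 := by
    rintro ⟨u, v⟩
    by_cases huv : u = v
    · exact ⟨0, fun h => absurd huv h⟩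
    · have : ∃ i, ¬ (i ∈ u ↔ i ∈ v) := by
        by_contra hcon
        push Not at hcon
        exact huv (Set.ext hcon)
      obtain ⟨i, hi⟩ := this
      refine ⟨i + 1, fun _ n hn heq => hi ?_⟩
      have h2 : i ∈ tr n u ↔ i ∈ tr n v := by rw [heq]
      simp only [mem_tr] at h2
      have h3 : i < n := by omega
      simpa [h3] using h2
  choose N hN using h1
  refine ⟨(T ×ˢ T).sup N, fun n hn u hu v hv heq => ?_⟩
  by_contra hne
  have hmem : (u, v) ∈ T ×ˢ T := Finset.mem_product.2 ⟨hu, hv⟩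
  have hle : N (u, v) ≤ n := (Finset.le_sup (f := N) hmem).trans hn
  exact hN (u, v) hne n hle heq

/-- The intersection of any infinite subfamily of the `X_w` is in the ideal. -/
lemma iInter_fam_mem {T : Set (Set ℕ)} (hT : T.Infinite) : (⋂ w ∈ T, fam w) ∈ idl := by
  classical
  refine ⟨1, fun l => ?_⟩
  obtain ⟨T', hT', hcard⟩ := hT.exists_subset_card_eq l
  obtain ⟨N, hN⟩ := tr_injOn T'
  refine ⟨N, fun n hn => ⟨∅, by simp, {T'.image (tr n)}, by simp, ?_, fun s hs => ?_⟩⟩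
  · intro b hb
    rw [Finset.mem_singleton] at hb
    subst hb
    rw [Finset.card_image_of_injOn (hN n hn), hcard]
  · right
    refine ⟨T'.image (tr n), by simp, ?_⟩
    intro x hx
    obtain ⟨w, hw, rfl⟩ := Finset.mem_image.1 hx
    have := Set.mem_iInter₂.1 hs w (hT' hw)
    exact this

/-! ### The quotient is `σ`-closed -/

/-- An initial segment with `k` elements of a fixed infinite list of finite sets. -/
def seg (k : ℕ) : Finset (Finset ℕ) := (Finset.range k).image (fun i => ({i} : Finset ℕ))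

lemma card_seg (k : ℕ) : (seg k).card = k := by
  classical
  rw [seg, Finset.card_image_of_injective _ (fun i j h => by simpa using h), Finset.card_range]

lemma seg_mono {k k' : ℕ} (h : k ≤ k') : seg k ⊆ seg k' := by
  classical
  exact Finset.image_subset_image (by simpa using h)

lemma notMem_idl {A : Set Pt} (hA : A ∉ idl) (k : ℕ) :
    ∃ l, ∀ N, ∃ n, N ≤ n ∧ ¬ Small k l A n := by
  by_contra hcon
  push Not at hcon
  exact hA ⟨k, hcon⟩

theorem sigma_closed (A : ℕ → Set Pt) (hpos : ∀ n, A n ∉ idl) (hdec : ∀ n, A (n + 1) ⊆ A n) :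
    ∃ B : Set Pt, B ∉ idl ∧ ∀ n, B \ A n ∈ idl := by
  classical
  choose L hL using fun j k => notMem_idl (hpos j) k
  -- the sizes `K j` of the finite families `seg (K j)`
  let K : ℕ → ℕ := fun j => Nat.rec 0 (fun j kj => kj + L j (kj + j + 1)) j
  have hK : ∀ j, K (j + 1) = K j + L j (K j + j + 1) := fun j => rfl
  have hKmono : Monotone K := monotone_nat_of_le_succ (fun j => by rw [hK]; omega)
  have hanti : Antitone A := antitone_nat_of_succ_le hdec
  let B : Set Pt := {x | ∃ j, j ≤ x.1 ∧ x ∈ A j ∧ seg (K j) ⊆ x.2 ∧ ¬ seg (K (j + 1)) ⊆ x.2}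
  refine ⟨B, ?_, ?_⟩
  · rintro ⟨k, hk⟩
    obtain ⟨N, hN⟩ := hk (L k (K k + k + 1))
    obtain ⟨n, hn, hsm⟩ := hL k (K k + k + 1) (max N k)
    apply hsm
    obtain ⟨a, ha, C, hC, hb, hs⟩ := hN n (le_trans (le_max_left _ _) hn)
    have hkn : k ≤ n := le_trans (le_max_right _ _) hn
    refine ⟨seg (K k) ∪ a, ?_, insert (seg (K (k + 1)) \ seg (K k)) C, ?_, ?_, ?_⟩
    · refine (Finset.card_union_le _ _).trans ?_
      rw [card_seg]
      omega
    · refine (Finset.card_insert_le _ _).trans ?_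
      omega
    · intro b hb'
      rcases Finset.mem_insert.1 hb' with h | h
      · rw [h, Finset.card_sdiff_of_subset (seg_mono (hKmono (Nat.le_succ k))), card_seg, card_seg,
          hK]
        omega
      · exact hb b h
    · intro s hsA
      by_cases h1 : seg (K k) ⊆ s
      · by_cases h2 : seg (K (k + 1)) ⊆ s
        · right
          exact ⟨_, Finset.mem_insert_self _ _, fun x hx => h2 (Finset.mem_sdiff.1 hx).1⟩
        · have hB : ((n, s) : Pt) ∈ B := ⟨k, hkn, hsA, h1, h2⟩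
          rcases hs s hB with h3 | ⟨b, hb1, hb2⟩
          · left
            intro h4
            exact h3 (Finset.union_subset_right h4)
          · right
            exact ⟨b, Finset.mem_insert_of_mem hb1, hb2⟩
      · left
        intro h4
        exact h1 (Finset.union_subset_left h4)
  · intro i
    refine ⟨K i, fun l => ⟨0, fun n _ => ⟨seg (K i), (card_seg _).le, ∅, by simp, by simp,
      fun s hs => ?_⟩⟩⟩
    left
    obtain ⟨⟨j, hj, hjA, h1, h2⟩, hnot⟩ := hs
    have hji : j < i := by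
      by_contra hcon
      push Not at hcon
      exact hnot (hanti hcon hjA)
    intro h3
    exact h2 ((seg_mono (hKmono hji)).trans h3)

theorem isSigmaIdeal_idl : IsSigmaIdeal idl :=
  ⟨isIdeal_idl, fun A hpos hdec => sigma_closed A hpos hdec⟩

/-! ### Atomlessness -/

theorem atomless {A : Set Pt} (hA : A ∉ idl) : ∃ B, B ⊆ A ∧ B ∉ idl ∧ A \ B ∉ idl := by
  classical
  choose L hL using fun k => notMem_idl hA k
  choose F hF1 hF2 using hL
  -- a strictly increasing sequence of levels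
  let kk : ℕ → ℕ := fun i => (Nat.unpair (i / 2)).1
  let ν : ℕ → ℕ := fun i => Nat.rec (F (kk 0) 0) (fun i v => F (kk (i + 1)) (v + 1)) i
  have hν0 : ν 0 = F (kk 0) 0 := rfl
  have hνs : ∀ i, ν (i + 1) = F (kk (i + 1)) (ν i + 1) := fun i => rfl
  have hmono : StrictMono ν := strictMono_nat_of_lt_succ (fun i => by
    rw [hνs]
    exact hF1 _ _)
  have hsm : ∀ i, ¬ Small (kk i) (L (kk i)) A (ν i) := by
    intro i
    cases i with
    | zero => exact hF2 _ _
    | succ i => rw [hνs]; exact hF2 _ _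
  let E : Set ℕ := {n | ∃ i, n = ν (2 * i)}
  let B : Set Pt := {x | x ∈ A ∧ x.1 ∈ E}
  have key : ∀ k N, ∃ j, N ≤ ν (2 * j) ∧ kk (2 * j) = k ∧ kk (2 * j + 1) = k := by
    intro k N
    refine ⟨Nat.pair k N, ?_, ?_, ?_⟩
    · have h1 : N ≤ Nat.pair k N := Nat.right_le_pair k N
      have h2 : 2 * Nat.pair k N ≤ ν (2 * Nat.pair k N) := hmono.id_le _
      omega
    · simp only [kk]
      rw [Nat.mul_div_cancel_left _ (by norm_num : 0 < 2), Nat.unpair_pair]
    · simp only [kk]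
      have : (2 * Nat.pair k N + 1) / 2 = Nat.pair k N := by omega
      rw [this, Nat.unpair_pair]
  refine ⟨B, fun x hx => hx.1, ?_, ?_⟩
  · rintro ⟨k, hk⟩
    obtain ⟨N, hN⟩ := hk (L k)
    obtain ⟨j, hj, hk1, -⟩ := key k N
    have h1 := hsm (2 * j)
    rw [hk1] at h1
    apply h1
    refine (hN _ hj).mono le_rfl le_rfl (fun s hs => ⟨hs, ⟨j, rfl⟩⟩)
  · rintro ⟨k, hk⟩
    obtain ⟨N, hN⟩ := hk (L k)
    obtain ⟨j, hj, -, hk1⟩ := key k N
    have h1 := hsm (2 * j + 1)
    rw [hk1] at h1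
    apply h1
    have hj' : N ≤ ν (2 * j + 1) := hj.trans (hmono.monotone (Nat.le_succ _))
    refine (hN _ hj').mono le_rfl le_rfl (fun s hs => ⟨hs, fun hB => ?_⟩)
    obtain ⟨i, hi⟩ := hB.2
    have hi' : ν (2 * j + 1) = ν (2 * i) := hi
    rcases lt_trichotomy (2 * j + 1) (2 * i) with h | h | h
    · exact absurd hi' (hmono h).ne
    · omega
    · exact absurd hi' (hmono h).ne'

/-! ### The ideal is Borel -/

lemma measurable_small (k l n : ℕ) : MeasurableSet {A : Set Pt | Small k l A n} := by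
  have : {A : Set Pt | Small k l A n} =
      ⋃ a : Finset (Finset ℕ), ⋃ B : Finset (Finset (Finset ℕ)),
        {A : Set Pt | a.card ≤ k ∧ B.card ≤ k ∧ (∀ b ∈ B, l ≤ b.card) ∧
          ∀ s, (n, s) ∈ A → ¬ a ⊆ s ∨ ∃ b ∈ B, b ⊆ s} := by
    ext A
    simp only [Small, Set.mem_ofPred_eq, Set.mem_iUnion]
    constructor
    · rintro ⟨a, ha, B, hB, h1, h2⟩
      exact ⟨a, B, ha, hB, h1, h2⟩
    · rintro ⟨a, B, ha, hB, h1, h2⟩
      exact ⟨a, ha, B, hB, h1, h2⟩
  rw [this]
  refine MeasurableSet.iUnion fun a => MeasurableSet.iUnion fun B => ?_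
  by_cases h : a.card ≤ k ∧ B.card ≤ k ∧ (∀ b ∈ B, l ≤ b.card)
  · have h2 : {A : Set Pt | a.card ≤ k ∧ B.card ≤ k ∧ (∀ b ∈ B, l ≤ b.card) ∧
          ∀ s, (n, s) ∈ A → ¬ a ⊆ s ∨ ∃ b ∈ B, b ⊆ s} =
        ⋂ s : Finset (Finset ℕ), {A : Set Pt | (n, s) ∈ A → ¬ a ⊆ s ∨ ∃ b ∈ B, b ⊆ s} := by
      ext A
      simp only [Set.mem_ofPred_eq, Set.mem_iInter]
      exact ⟨fun h' => h'.2.2.2, fun h' => ⟨h.1, h.2.1, h.2.2, h'⟩⟩
    rw [h2]
    refine MeasurableSet.iInter fun s => ?_
    by_cases h3 : ¬ a ⊆ s ∨ ∃ b ∈ B, b ⊆ s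
    · have : {A : Set Pt | (n, s) ∈ A → ¬ a ⊆ s ∨ ∃ b ∈ B, b ⊆ s} = Set.univ := by
        ext A
        simp only [Set.mem_ofPred_eq, Set.mem_univ, iff_true]
        exact fun _ => h3
      rw [this]
      exact MeasurableSet.univ
    · have : {A : Set Pt | (n, s) ∈ A → ¬ a ⊆ s ∨ ∃ b ∈ B, b ⊆ s} =
          {A : Set Pt | (n, s) ∈ A}ᶜ := by
        ext A
        simp only [Set.mem_ofPred_eq, Set.mem_compl_iff]
        exact ⟨fun h4 h5 => h3 (h4 h5), fun h4 h5 => absurd h5 h4⟩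
      rw [this]
      exact (measurableSet_setOfPred.2 (measurable_set_mem _)).compl
  · have : {A : Set Pt | a.card ≤ k ∧ B.card ≤ k ∧ (∀ b ∈ B, l ≤ b.card) ∧
          ∀ s, (n, s) ∈ A → ¬ a ⊆ s ∨ ∃ b ∈ B, b ⊆ s} = ∅ := by
      ext A
      simp only [Set.mem_ofPred_eq, Set.mem_empty_iff_false, iff_false]
      exact fun h' => h ⟨h'.1, h'.2.1, h'.2.2.1⟩
    rw [this]
    exact MeasurableSet.empty

theorem measurable_idl : MeasurableSet idl := by
  have : idl = ⋃ k : ℕ, ⋂ l : ℕ, ⋃ N : ℕ, ⋂ n : ℕ, {A : Set Pt | N ≤ n → Small k l A n} := by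
    ext A
    simp only [idl, Set.mem_ofPred_eq, Set.mem_iUnion, Set.mem_iInter]
  rw [this]
  refine MeasurableSet.iUnion fun k => MeasurableSet.iInter fun l => MeasurableSet.iUnion fun N =>
    MeasurableSet.iInter fun n => ?_
  by_cases h : N ≤ n
  · have : {A : Set Pt | N ≤ n → Small k l A n} = {A : Set Pt | Small k l A n} := by
      ext A
      simp [h]
    rw [this]
    exact measurable_small k l n
  · have : {A : Set Pt | N ≤ n → Small k l A n} = Set.univ := by
      ext A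
      simp [h]
    rw [this]
    exact MeasurableSet.univ

end Pool.Agent.Lib.MP_c87228_lc
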