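import Mathlib
import Pool.Agent.Lib.MP_c87228_lc.Forcing

/-!
# A sufficient condition for all generic ultrafilters to be Tukey-top

If an ideal `I` on `X` admits a family `(X_w)`, `w ⊆ ℕ`, of sets in the dual filter such that the
intersection of every infinite subfamily is in `I`, then every condition of `P(X)/I` forces the
generic ultrafilter to be Tukey-top.
-/

namespace Pool.Agent.Lib.MP_c87228_lc

section General

variable {X : Type} {I : Set (Set X)}

lemma cond_le_iff {p q : Cond I} : p ≤ q ↔ p.carrier \ q.carrier ∈ I := Iff.rfl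

lemma cond_refl (hI : IsIdeal I) (p : Cond I) : p ≤ p := by
  rw [cond_le_iff, Set.sdiff_self]
  exact hI.finite_mem _ Set.finite_empty

lemma diff_trans (hI : IsIdeal I) {A B C : Set X} (h1 : A \ B ∈ I) (h2 : B \ C ∈ I) :
    A \ C ∈ I := by
  refine hI.subset_mem _ _ ?_ (hI.union_mem _ _ h1 h2)
  intro x hx
  by_cases hB : x ∈ B
  · exact Or.inr ⟨hB, hx.2⟩
  · exact Or.inl ⟨hx.1, hB⟩

lemma cond_trans (hI : IsIdeal I) {p q r : Cond I} (h1 : p ≤ q) (h2 : q ≤ r) : p ≤ r :=
  diff_trans hI h1 h2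

/-- Membership in a name is inherited by stronger conditions. -/
lemma mem_mono (hI : IsIdeal I) {α : Type} {N : Name (Cond I) α} {a : α} {p q : Cond I}
    (h : Forces p (mem a N)) (hq : q ≤ p) : Forces q (mem a N) :=
  fun r hr => h r (cond_trans hI hr hq)

/-- What `p ⊩ A ∈ G` means for the generic ultrafilter: `p \ A ∈ I`. -/
lemma mem_generic (hI : IsIdeal I) {p : Cond I} {A : Set X} :
    Forces p (mem A (genericName I)) ↔ p.carrier \ A ∈ I := by
  constructor
  · intro h
    by_contra hcon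
    obtain ⟨r, hr, s, hs, hrs⟩ := h ⟨p.carrier \ A, hcon⟩ (by
      rw [cond_le_iff]
      refine hI.subset_mem _ ∅ ?_ (hI.finite_mem _ Set.finite_empty)
      rintro x ⟨⟨h1, _⟩, h2⟩
      exact absurd h1 h2)
    have h1 : r.carrier \ A ∈ I := diff_trans hI hrs hs
    have h2 : r.carrier \ (p.carrier \ A) ∈ I := hr
    apply r.pos
    refine hI.subset_mem _ _ ?_ (hI.union_mem _ _ h1 h2)
    intro x hx
    by_cases hA : x ∈ A
    · exact Or.inr ⟨hx, fun h => h.2 hA⟩
    · exact Or.inl ⟨hx, hA⟩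
  · intro h q hq
    exact ⟨q, cond_refl hI q, q, diff_trans hI hq h, cond_refl hI q⟩

/-- Sanity check: every condition forces the generic `G` to be an ultrafilter on `X`. -/
theorem generic_isUltrafilter (hI : IsIdeal I) (p : Cond I) :
    Forces p (IsUltrafilterOn (genericName I)) := by
  have hempty : (∅ : Set X) ∈ I := hI.finite_mem _ Set.finite_empty
  refine ⟨(mem_generic hI).2 (by simpa using hempty), ?_, ?_, ?_, ?_⟩
  · intro q _ h
    have := (mem_generic hI).1 h
    rw [Set.sdiff_empty] at this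
    exact q.pos this
  · intro A B q _ hA r hr hAB
    rw [mem_generic hI] at hA
    refine (mem_generic hI).2 ?_
    have h1 : r.carrier \ A ∈ I := diff_trans hI hr hA
    exact hI.subset_mem _ _ (Set.sdiff_subset_sdiff_right hAB) h1
  · intro A B q _ hA r hr hB
    rw [mem_generic hI] at hA hB
    refine (mem_generic hI).2 ?_
    have h1 : r.carrier \ A ∈ I := diff_trans hI hr hA
    rw [Set.sdiff_inter]
    exact hI.union_mem _ _ h1 hB
  · intro A q _
    by_cases h : q.carrier ∩ A ∈ I
    · refine ⟨q, cond_refl hI q, Or.inr ((mem_generic hI).2 ?_)⟩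
      rw [Set.sdiff_compl]
      exact h
    · refine ⟨⟨q.carrier ∩ A, h⟩, ?_, Or.inl ((mem_generic hI).2 ?_)⟩
      · rw [cond_le_iff]
        refine hI.subset_mem _ ∅ ?_ hempty
        rintro x ⟨⟨h1, _⟩, h2⟩
        exact absurd h1 h2
      · refine hI.subset_mem _ ∅ ?_ hempty
        rintro x ⟨⟨_, h1⟩, h2⟩
        exact absurd h1 h2

section Top

variable (hI : IsIdeal I) (Y : Set ℕ → Set X) (hY : ∀ w, (Y w)ᶜ ∈ I)
  (hYinf : ∀ T : Set (Set ℕ), T.Infinite → (⋂ w ∈ T, Y w) ∈ I)

/-- For `A` not in the ideal, only finitely many `Y w` contain `A`. -/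
lemma finite_above (hI : IsIdeal I) {Y : Set ℕ → Set X}
    (hYinf : ∀ T : Set (Set ℕ), T.Infinite → (⋂ w ∈ T, Y w) ∈ I) {A : Set X} (hA : A ∉ I) :
    {w : Set ℕ | A ⊆ Y w}.Finite := by
  by_contra h
  refine hA (hI.subset_mem _ _ ?_ (hYinf _ h))
  intro x hx
  simp only [Set.mem_iInter]
  exact fun w hw => hw hx

/-- The condition `p` decides, for each `w` with `A ⊆ Y w`, whether `w` belongs to `W`. -/
def Decides (Y : Set ℕ → Set X) (W : Name (Cond I) (Set ℕ)) (A : Set X) (p : Cond I) : Prop :=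
  ∀ w, A ⊆ Y w → Forces p (mem w W) ∨ Forces p (neg (mem w W))

/-- The intersection of all `w` with `A ⊆ Y w` that `p` forces into `W`. -/
def val (Y : Set ℕ → Set X) (W : Name (Cond I) (Set ℕ)) (A : Set X) (p : Cond I) : Set ℕ :=
  {i | ∀ w, A ⊆ Y w → Forces p (mem w W) → i ∈ w}

/-- The name for the Tukey map `A ↦ ⋂ {w ∈ W : A ⊆ Y w}`. -/
def mapName (Y : Set ℕ → Set X) (W : Name (Cond I) (Set ℕ)) :
    Name (Cond I) (Set X × Set ℕ) :=
  fun x => {p | p.carrier \ x.1 ∈ I ∧ Decides Y W x.1 p ∧ x.2 = val Y W x.1 p}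

lemma neg_mono (hI : IsIdeal I) {φ : Sentence (Cond I)} {p q : Cond I}
    (h : Forces p (neg φ)) (hq : q ≤ p) : Forces q (neg φ) :=
  fun r hr => h r (cond_trans hI hr hq)

lemma val_eq (hI : IsIdeal I) {Y : Set ℕ → Set X} {W : Name (Cond I) (Set ℕ)} {A : Set X}
    {p q : Cond I} (hp : Decides Y W A p) (hq : q ≤ p) : val Y W A q = val Y W A p := by
  ext i
  simp only [val, Set.mem_ofPred_eq]
  constructor
  · intro h w hw hf
    exact h w hw (mem_mono hI hf hq)
  · intro h w hw hf
    rcases hp w hw with h1 | h1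
    · exact h w hw h1
    · exact absurd hf (h1 q hq)

lemma mapName_mono (hI : IsIdeal I) {Y : Set ℕ → Set X} {W : Name (Cond I) (Set ℕ)}
    {x : Set X × Set ℕ} {p q : Cond I} (hp : p ∈ mapName Y W x) (hq : q ≤ p) :
    q ∈ mapName Y W x := by
  obtain ⟨h1, h2, h3⟩ := hp
  refine ⟨diff_trans hI hq h1, fun w hw => ?_, ?_⟩
  · rcases h2 w hw with h | h
    · exact Or.inl (mem_mono hI h hq)
    · exact Or.inr (neg_mono hI h hq)
  · rw [val_eq hI h2 hq]
    exact h3

/-- `p ⊩ x ∈ F` for the name `F = mapName`. -/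
lemma mem_mapName (hI : IsIdeal I) {Y : Set ℕ → Set X} {W : Name (Cond I) (Set ℕ)}
    {x : Set X × Set ℕ} {p : Cond I} :
    Forces p (mem x (mapName Y W)) ↔ ∀ q, q ≤ p → ∃ r, r ≤ q ∧ r ∈ mapName Y W x := by
  constructor
  · intro h q hq
    obtain ⟨r, hr, s, hs, hrs⟩ := h q hq
    exact ⟨r, hr, mapName_mono hI hs hrs⟩
  · intro h q hq
    obtain ⟨r, hr, h1⟩ := h q hq
    exact ⟨r, hr, r, h1, cond_refl hI r⟩

lemma exists_decides (hI : IsIdeal I) {Y : Set ℕ → Set X}
    (hYinf : ∀ T : Set (Set ℕ), T.Infinite → (⋂ w ∈ T, Y w) ∈ I)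
    (W : Name (Cond I) (Set ℕ)) {A : Set X} (hA : A ∉ I) (q : Cond I) :
    ∃ r, r ≤ q ∧ Decides Y W A r := by
  classical
  have hfin := finite_above hI hYinf hA
  have key : ∀ T : Finset (Set ℕ), ∃ r : Cond I, r ≤ q ∧
      ∀ w ∈ T, Forces r (mem w W) ∨ Forces r (neg (mem w W)) := by
    intro T
    induction T using Finset.induction_on with
    | empty => exact ⟨q, cond_refl hI q, by simp⟩
    | insert w T _ ih =>
      obtain ⟨r, hr, h⟩ := ih
      by_cases hw : ∃ s, s ≤ r ∧ Forces s (mem w W)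
      · obtain ⟨s, hs, hsw⟩ := hw
        refine ⟨s, cond_trans hI hs hr, fun v hv => ?_⟩
        rcases Finset.mem_insert.1 hv with rfl | hv
        · exact Or.inl hsw
        · rcases h v hv with h1 | h1
          · exact Or.inl (mem_mono hI h1 hs)
          · exact Or.inr (neg_mono hI h1 hs)
      · push Not at hw
        refine ⟨r, hr, fun v hv => ?_⟩
        rcases Finset.mem_insert.1 hv with rfl | hv
        · exact Or.inr hw
        · exact h v hv
  obtain ⟨r, hr, h⟩ := key hfin.toFinset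
  exact ⟨r, hr, fun w hw => h w (by simpa using hw)⟩

/-- A condition forcing `W` to be an ultrafilter forces into `W` every finite intersection of sets
it forces into `W`. -/
lemma finite_inter_mem {W : Name (Cond I) (Set ℕ)} (hI : IsIdeal I) {q : Cond I}
    (hW : Forces q (IsUltrafilterOn W)) (T : Set (Set ℕ)) (hT : T.Finite)
    (h : ∀ w ∈ T, Forces q (mem w W)) : Forces q (mem (⋂ w ∈ T, w) W) := by
  obtain ⟨h1, _, _, h4, _⟩ := hW
  induction T, hT using Set.Finite.induction_on with
  | empty => simpa using h1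
  | @insert w T _ _ ih =>
    rw [Set.biInter_insert]
    exact h4 w (⋂ w ∈ T, w) q (cond_refl hI q) (h w (Set.mem_insert _ _)) q (cond_refl hI q)
      (ih (fun v hv => h v (Set.mem_insert_of_mem _ hv)))

lemma isUltrafilterOn_mono (hI : IsIdeal I) {W : Name (Cond I) (Set ℕ)} {p q : Cond I}
    (h : Forces p (IsUltrafilterOn W)) (hq : q ≤ p) : Forces q (IsUltrafilterOn W) := by
  obtain ⟨h1, h2, h3, h4, h5⟩ := h
  exact ⟨mem_mono hI h1 hq, neg_mono hI h2 hq,
    fun A B r hr => h3 A B r (cond_trans hI hr hq),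
    fun A B r hr => h4 A B r (cond_trans hI hr hq),
    fun A r hr => h5 A r (cond_trans hI hr hq)⟩

include hI hY hYinf in
/-- Main point: the generic ultrafilter is Tukey-top. -/
theorem generic_isTukeyTop (p : Cond I) : Forces p (IsTukeyTop (genericName I)) := by
  intro W q _ hW q₁ hq₁
  have hW₁ := isUltrafilterOn_mono hI hW hq₁
  refine ⟨q₁, cond_refl hI q₁, mapName Y W, ⟨?_, ?_, ?_⟩, ?_⟩
  · -- `F ⊆ G × W`
    intro A b r hr hF
    rw [mem_mapName hI] at hF
    constructor
    · rw [mem_generic hI]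
      by_contra hcon
      obtain ⟨t, ht, h⟩ := hF ⟨r.carrier \ A, hcon⟩ (by
        rw [cond_le_iff]
        refine hI.subset_mem _ ∅ ?_ (hI.finite_mem _ Set.finite_empty)
        rintro x ⟨⟨h1, _⟩, h2⟩
        exact absurd h1 h2)
      have h1 : t.carrier \ A ∈ I := h.1
      have h2 : t.carrier \ (r.carrier \ A) ∈ I := ht
      apply t.pos
      refine hI.subset_mem _ _ ?_ (hI.union_mem _ _ h1 h2)
      intro x hx
      by_cases hA : x ∈ A
      · exact Or.inr ⟨hx, fun h => h.2 hA⟩
      · exact Or.inl ⟨hx, hA⟩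
    · intro s hs
      obtain ⟨t, ht, h⟩ := hF s hs
      have htq : t ≤ q₁ := cond_trans hI ht (cond_trans hI hs hr)
      have hA : A ∉ I := by
        intro hAI
        apply t.pos
        refine hI.subset_mem _ _ ?_ (hI.union_mem _ _ h.1 hAI)
        intro x hx
        by_cases hx' : x ∈ A
        · exact Or.inr hx'
        · exact Or.inl ⟨hx, hx'⟩
      have hfin : {w : Set ℕ | A ⊆ Y w ∧ Forces t (mem w W)}.Finite :=
        (finite_above hI hYinf hA).subset (fun w hw => hw.1)
      have h5 := finite_inter_mem hI (isUltrafilterOn_mono hI hW₁ htq) _ hfin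
        (fun w hw => hw.2)
      have h6 : (⋂ w ∈ {w : Set ℕ | A ⊆ Y w ∧ Forces t (mem w W)}, w) = b := by
        have hb : b = val Y W A t := h.2.2
        rw [hb]
        ext i
        simp only [val, Set.mem_iInter, Set.mem_ofPred_eq, and_imp]
      rw [h6] at h5
      obtain ⟨u, hu, v, hv, huv⟩ := h5 t (cond_refl hI t)
      exact ⟨u, cond_trans hI hu ht, v, hv, huv⟩
  · -- totality
    intro A r hr hA s hs
    rw [mem_generic hI] at hA
    have hsA : s.carrier \ A ∈ I := diff_trans hI hs hA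
    have hAI : A ∉ I := by
      intro hAI
      apply s.pos
      refine hI.subset_mem _ _ ?_ (hI.union_mem _ _ hsA hAI)
      intro x hx
      by_cases hx' : x ∈ A
      · exact Or.inr hx'
      · exact Or.inl ⟨hx, hx'⟩
    obtain ⟨t, ht, hdec⟩ := exists_decides hI hYinf W hAI s
    refine ⟨t, ht, val Y W A t, ?_⟩
    rw [mem_mapName hI]
    intro u hu
    refine ⟨u, cond_refl hI u, ?_⟩
    exact mapName_mono hI (x := (A, val Y W A t)) ⟨diff_trans hI ht hsA, hdec, rfl⟩ hu
  · -- single-valuedness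
    intro A b b' r _ h1 s hs h2
    rw [mem_mapName hI] at h1 h2
    obtain ⟨t, ht, h3⟩ := h1 s hs
    obtain ⟨u, hu, h4⟩ := h2 t ht
    have h5 := mapName_mono hI h3 hu
    have h6 : b = val Y W A u := h5.2.2
    have h7 : b' = val Y W A u := h4.2.2
    exact h6.trans h7.symm
  · -- cofinal sets go to cofinal sets
    intro C r hr hC w s hs hw t ht
    obtain ⟨hC1, hC2⟩ := hC
    have htr : t ≤ r := cond_trans hI ht hs
    have hYw : Forces t (mem (Y w) (genericName I)) := by
      rw [mem_generic hI]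
      exact hI.subset_mem _ _ (fun x hx => hx.2) (hY w)
    obtain ⟨u, hu, c, hc1, hc2⟩ := hC2 (Y w) t htr hYw t (cond_refl hI t)
    have hcw : c ⊆ Y w := hc2
    have hur : u ≤ r := cond_trans hI hu htr
    have hcG := hC1 c u hur hc1
    rw [mem_generic hI] at hcG
    have hcI : c ∉ I := by
      intro hAI
      apply u.pos
      refine hI.subset_mem _ _ ?_ (hI.union_mem _ _ hcG hAI)
      intro x hx
      by_cases hx' : x ∈ c
      · exact Or.inr hx'
      · exact Or.inl ⟨hx, hx'⟩
    obtain ⟨v, hv, hdec⟩ := exists_decides hI hYinf W hcI u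
    have hvc : v.carrier \ c ∈ I := diff_trans hI hv hcG
    refine ⟨v, cond_trans hI hv hu, c, fun v' hv' => ⟨v', cond_refl hI v', val Y W c v,
      mem_mono hI (mem_mono hI hc1 hv) hv', ?_, ?_⟩⟩
    · rw [mem_mapName hI]
      intro v₂ hv₂
      refine ⟨v₂, cond_refl hI v₂, ?_⟩
      exact mapName_mono hI (x := (c, val Y W c v)) ⟨hvc, hdec, rfl⟩ (cond_trans hI hv₂ hv')
    · intro i hi
      have hwv : Forces v (mem w W) :=
        mem_mono hI hw (cond_trans hI hv (cond_trans hI hu ht))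
      exact hi w hcw hwv

end Top

end General

end Pool.Agent.Lib.MP_c87228_lc
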