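import Mathlib
import Pool.Agent.Lib.MP_c87228_lc.Forcing
import Pool.Agent.Lib.MP_c87228_lc.Top

/-!
# Sanity checks for the forcing formalism

* `no_new_subsets`: for a `σ`-ideal `I`, the forcing `P(X)/I` adds no new subsets of `ℕ`.
* `generic_isUltrafilter` (in `Top.lean`): the generic `G` is forced to be an ultrafilter on `X`.
* `not_forces_both`: no condition forces both a statement and its negation.
* `forces_of_dense` type facts: membership and negation are decided on a dense set.
-/

namespace Pool.Agent.Lib.MP_c87228_lc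

variable {X : Type} {I : Set (Set X)}

/-- No condition forces both a statement and its negation. -/
theorem not_forces_both (hI : IsIdeal I) (φ : Sentence (Cond I)) (p : Cond I) :
    ¬ (Forces p φ ∧ Forces p (neg φ)) :=
  fun h => h.2 p (cond_refl hI p) h.1

/-- Every condition has an extension deciding a given statement. -/
theorem exists_decides_sentence (hI : IsIdeal I) (φ : Sentence (Cond I)) (p : Cond I) :
    ∃ q, q ≤ p ∧ (Forces q φ ∨ Forces q (neg φ)) := by
  by_cases h : ∃ q, q ≤ p ∧ Forces q φ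
  · obtain ⟨q, hq, hφ⟩ := h
    exact ⟨q, hq, Or.inl hφ⟩
  · push Not at h
    exact ⟨p, cond_refl hI p, Or.inr h⟩

/-- An extension of `p` can be replaced by one whose underlying set is a subset of `p`. -/
lemma exists_subset_cond (hI : IsIdeal I) {p q : Cond I} (h : q ≤ p) :
    ∃ r : Cond I, r ≤ q ∧ r.carrier ⊆ p.carrier := by
  have hpos : q.carrier ∩ p.carrier ∉ I := by
    intro hcon
    apply q.pos
    refine hI.subset_mem _ _ ?_ (hI.union_mem _ _ h hcon)
    intro x hx
    by_cases hx' : x ∈ p.carrier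
    · exact Or.inr ⟨hx, hx'⟩
    · exact Or.inl ⟨hx, hx'⟩
  refine ⟨⟨q.carrier ∩ p.carrier, hpos⟩, ?_, Set.inter_subset_right⟩
  rw [cond_le_iff]
  refine hI.subset_mem _ ∅ ?_ (hI.finite_mem _ Set.finite_empty)
  rintro x ⟨⟨h1, _⟩, h2⟩
  exact absurd h1 h2

/-- **No new subsets of `ℕ`.** For a `σ`-ideal `I` and a name `N` for a subset of `ℕ`, every
condition `p` has an extension `q` and a ground model set `S ⊆ ℕ` such that `q` forces
`N = S`. -/
theorem no_new_subsets (hI : IsSigmaIdeal I) (N : Name (Cond I) ℕ) (p : Cond I) :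
    ∃ q, q ≤ p ∧ ∃ S : Set ℕ, ∀ n, (n ∈ S → Forces q (mem n N)) ∧
      (n ∉ S → Forces q (neg (mem n N))) := by
  classical
  obtain ⟨hid, hsig⟩ := hI
  have step : ∀ (p : Cond I) (n : ℕ), ∃ r : Cond I, r.carrier ⊆ p.carrier ∧
      (Forces r (mem n N) ∨ Forces r (neg (mem n N))) := by
    intro p n
    obtain ⟨q, hq, h⟩ := exists_decides_sentence hid (mem n N) p
    obtain ⟨r, hr, hrp⟩ := exists_subset_cond hid hq
    refine ⟨r, hrp, ?_⟩
    rcases h with h | h
    · exact Or.inl (mem_mono hid h hr)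
    · exact Or.inr (neg_mono hid h hr)
  choose F hF1 hF2 using step
  let s : ℕ → Cond I := fun n => Nat.rec (F p 0) (fun n q => F q (n + 1)) n
  have hs0 : s 0 = F p 0 := rfl
  have hss : ∀ n, s (n + 1) = F (s n) (n + 1) := fun n => rfl
  have hdec : ∀ n, Forces (s n) (mem n N) ∨ Forces (s n) (neg (mem n N)) := by
    intro n
    cases n with
    | zero => exact hF2 p 0
    | succ n => rw [hss]; exact hF2 (s n) (n + 1)
  obtain ⟨B, hB, hBs⟩ := hsig (fun n => (s n).carrier) (fun n => (s n).pos) (fun n => by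
    show (s (n + 1)).carrier ⊆ (s n).carrier
    rw [hss]
    exact hF1 _ _)
  refine ⟨⟨B, hB⟩, ?_, {n | Forces (s n) (mem n N)}, fun n => ⟨fun hn => ?_, fun hn => ?_⟩⟩
  · have h1 : B \ (s 0).carrier ∈ I := hBs 0
    refine hid.subset_mem _ _ (Set.sdiff_subset_sdiff_right ?_) h1
    rw [hs0]
    exact hF1 _ _
  · exact mem_mono hid hn (hBs n)
  · rcases hdec n with h | h
    · exact absurd h hn
    · exact neg_mono hid h (hBs n)

end Pool.Agent.Lib.MP_c87228_lc
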